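import Mathlib
import Pool.Agent.V5helper95.KV.Crit
import Pool.Agent.Y205.AV.Large
import Pool.Agent.V5helper94.AC.Vec
import Pool.Agent.V5helper94.AC.Gen
import Pool.Agent.V5helper94.AC.Rnd

set_option autoImplicit false

/-!
# The strong Nagata conjecture for random multiplicities

Let `X 0, X 1, …` be nonnegative random variables, pairwise independent and identically distributed,
with `P (X ≥ 1) > 0`, and with a finite `p`-th moment for some `p ≥ 2`. We consider the plane curves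
`C` of degree `d` with the multiplicities `w i = ⌊a X i⌋`, `i < n`, at `n` general points, where
`a ≥ 1` is a real number. Almost surely we have for all sufficiently large `n`:

1. for general points (outside one hypersurface), for all `a ≤ C n ^ (1 - 2 / p)` and for ALL degrees
   `d` simultaneously: every plane curve (any nonzero form, reducible or not, of any genus) of degree
   `d` with multiplicities at least `w i` satisfies `d ^ 2 > ∑ w i ^ 2`; moreover the class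
   `d H - ∑ w i E i` has the expected dimension `h⁰ = max (0, χ)`;
2. for ALL `a ≥ 1` this holds for all degrees `d` outside an interval of length at most
   `√n + ε a n ^ (6 / p - 5 / 2)`;
3. if the random variables are bounded, then 1. holds for all `a ≤ c n`, with a constant `c > 0`.

The hypersurfaces are defined over `ℚ`, so all this holds for every `n`-tuple of points whose `2 n`
coordinates are algebraically independent. For example (`p = 2`, `a = 1`): if the multiplicities are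
independent and identically distributed random natural numbers with a finite second moment, then
almost surely for all large `n` every curve with these multiplicities has a positive
self-intersection number on the blow-up.
-/

namespace Pool.Agent.Results.MP_b180eb_ag.RandomMultiplicities

open MvPolynomial Pool.Agent.TH167.SHDefs MeasureTheory ProbabilityTheory Filter
open Pool.Agent.V5helper95.KV (Positive Negative up)
open Pool.Agent.Y205.AV (Large)

/-- `h⁰ (D)` for the class `D = d H - ∑ w i E i`. -/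
noncomputable def hZero {n : ℕ} (P : Fin n → Fin 2 → ℂ) (d : ℕ) (w : Fin n → ℕ) : ℤ :=
  (Module.finrank ℂ ↥(sys P d w) : ℤ)

/-- The Euler characteristic. -/
def chi {n : ℕ} (d : ℕ) (w : Fin n → ℕ) : ℤ :=
  ((d + 2).choose 2 : ℤ) - ∑ i, ((w i + 1).choose 2 : ℤ)

/-- The property holds for all `n`-tuples of points outside some hypersurface which is defined over
`ℚ`. -/
def ForGeneral {n : ℕ} (p : (Fin n → Fin 2 → ℂ) → Prop) : Prop :=
  ∃ F : MvPolynomial (Fin n × Fin 2) ℚ, F ≠ 0 ∧ ∀ P : Fin n → Fin 2 → ℂ,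
    aeval (fun ij : Fin n × Fin 2 => P ij.1 ij.2) F ≠ 0 → p P

/-- The multiplicities `⌊a x i⌋`, `i < n`. -/
noncomputable def mult (x : ℕ → ℝ) (a : ℝ) (n : ℕ) : Fin n → ℕ := fun i => ⌊a * x i⌋₊

/-- The class `D = d H - ∑ w i E i` satisfies `h⁰ (D) = max (0, χ)`, and if it is effective (there is a
nonzero form of degree `d` with multiplicity at least `w i` at `P i`, for all `i`), then `D ^ 2 > 0`. -/
def Strong {n : ℕ} (P : Fin n → Fin 2 → ℂ) (d : ℕ) (w : Fin n → ℕ) : Prop :=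
  hZero P d w = max 0 (chi d w) ∧ (sys P d w ≠ ⊥ → ∑ i, w i ^ 2 < d ^ 2)

/-- The property `Strong` for ALL degrees. -/
def AllDegrees {n : ℕ} (P : Fin n → Fin 2 → ℂ) (w : Fin n → ℕ) : Prop :=
  ∀ d : ℕ, Strong P d w

/-- The property `Strong` for general points (the hypersurface does not depend on the degree) and all
degrees outside an interval of at most `B` integers (which does not depend on the points). -/
def AllDegreesBut {n : ℕ} (B : ℝ) (w : Fin n → ℕ) : Prop :=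
  ∃ e L : ℕ, (L : ℝ) ≤ B ∧ ForGeneral fun P : Fin n → Fin 2 → ℂ =>
    ∀ d : ℕ, d < e ∨ e + L ≤ d → Strong P d w

/-- The inequality for effective classes. -/
theorem strong_of {n : ℕ} {P : Fin n → Fin 2 → ℂ} {d : ℕ} {w : Fin n → ℕ}
    (h : hZero P d w = max 0 (chi d w)) (hw : 9 * ∑ i, w i ^ 2 < (∑ i, w i) ^ 2) :
    Strong P d w := by
  refine ⟨h, fun hne => ?_⟩
  have hfinH : Module.Finite ℂ ↥(homogeneousSubmodule (Fin 3) ℂ d) :=
    Module.Finite.iff_fg.2 (homogeneousSubmodule_fg _ _ d)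
  have hfin : Module.Finite ℂ ↥(sys P d w) := Submodule.finiteDimensional_of_le inf_le_left
  have h1 : 0 < Module.finrank ℂ ↥(sys P d w) := by
    rw [Module.finrank_pos_iff]
    exact Submodule.nontrivial_iff_ne_bot.2 hne
  have h2 : 1 ≤ chi d w := by
    unfold hZero at h
    omega
  have h3 : 2 * (d + 2).choose 2 = (d + 1) * (d + 2) := Pool.Agent.TH2.NU.two_choose (d + 1)
  have h4 : 2 * ∑ i, (w i + 1).choose 2 = ∑ i, w i ^ 2 + ∑ i, w i := by
    rw [Finset.mul_sum, ← Finset.sum_add_distrib]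
    refine Finset.sum_congr rfl fun i _ => ?_
    rw [Pool.Agent.TH2.NU.two_choose (w i)]
    ring
  have h5 : ∑ i, ((w i + 1).choose 2 : ℤ) = ((∑ i, Nat.choose (w i + 1) 2 : ℕ) : ℤ) := by
    push_cast
    rfl
  unfold chi at h2
  rw [h5] at h2
  obtain ⟨Q, hQ⟩ : ∃ Q, Q = ∑ i, w i ^ 2 := ⟨_, rfl⟩
  obtain ⟨S, hS⟩ : ∃ S, S = ∑ i, w i := ⟨_, rfl⟩
  rw [← hQ, ← hS] at hw h4
  rw [← hQ]
  have h6 : Q + S ≤ d ^ 2 + 3 * d := by
    have h7 : 2 * (d + 2).choose 2 ≥ 2 * ∑ i, (w i + 1).choose 2 + 2 := by omega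
    rw [h3, h4] at h7
    nlinarith
  by_contra hcon
  push Not at hcon
  have h8 : S ≤ 3 * d := by omega
  have h9 : S ^ 2 ≤ (3 * d) ^ 2 := Nat.pow_le_pow_left h8 2
  nlinarith

theorem hZero_of {n : ℕ} {P : Fin n → Fin 2 → ℂ} {d : ℕ} {w : Fin n → ℕ}
    (h : Pool.Agent.H932R3.ExpDim ℂ w P d) : hZero P d w = max 0 (chi d w) := by
  have h1 : Module.finrank ℂ ↥(sys P d w) =
      Nat.choose (d + 2) 2 - ∑ i, Nat.choose (w i + 1) 2 := h
  have h2 : ∑ i, ((w i + 1).choose 2 : ℤ) = ((∑ i, Nat.choose (w i + 1) 2 : ℕ) : ℤ) := by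
    push_cast
    rfl
  unfold hZero chi
  rw [h1, h2]
  omega

theorem big_all {n : ℕ} (w : Fin n → ℕ) : ForGeneral fun P : Fin n → Fin 2 → ℂ => ∀ d μ : ℕ,
    (∀ i, w i ≤ μ) → Pool.Agent.Y205.AV.Big w μ d → hZero P d w = max 0 (chi d w) := by
  obtain ⟨F, hF, hF'⟩ := Pool.Agent.Y205.AV.big_vectors w
  exact ⟨F, hF, fun P hP d μ h1 h2 => hZero_of (hF' (L := ℂ) P hP d μ h1 h2)⟩

theorem all_of_crit {n μ : ℕ} {w : Fin n → ℕ} (hμ : ∀ i, w i ≤ μ)
    (h : 25000 * (μ + 1) ^ 2 ≤ ∑ i, w i) :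
    ForGeneral fun P : Fin n → Fin 2 → ℂ => AllDegrees P w := by
  obtain ⟨F, hF, hF'⟩ := big_all w
  have h1 : ∑ i, w i ^ 2 ≤ μ * ∑ i, w i := by
    rw [Finset.mul_sum]
    refine Finset.sum_le_sum fun i _ => ?_
    rw [pow_two]
    exact Nat.mul_le_mul_right _ (hμ i)
  have h2 : 9 * ∑ i, w i ^ 2 < (∑ i, w i) ^ 2 := by
    obtain ⟨S, hS⟩ : ∃ S, S = ∑ i, w i := ⟨_, rfl⟩
    rw [← hS] at h h1 ⊢
    have h3 : 9 * μ < S := by nlinarith
    calc 9 * ∑ i, w i ^ 2 ≤ 9 * (μ * S) := Nat.mul_le_mul_left 9 h1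
      _ = 9 * μ * S := by ring
      _ < S * S := Nat.mul_lt_mul_of_pos_right h3 (by omega)
      _ = S ^ 2 := by ring
  exact ⟨F, hF, fun P hP d =>
    strong_of (hF' P hP d μ hμ (Or.inl (h.trans (Nat.le_add_right _ _)))) h2⟩

theorem but_of_all {n : ℕ} {w : Fin n → ℕ}
    (h : ForGeneral fun P : Fin n → Fin 2 → ℂ => AllDegrees P w) {B : ℝ} (hB : 0 ≤ B) :
    AllDegreesBut B w := by
  obtain ⟨F, hF, hF'⟩ := h
  exact ⟨0, 0, by rwa [Nat.cast_zero], F, hF, fun P hP d _ => hF' P hP d⟩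

/-- Large degrees. -/
theorem exists_big {n : ℕ} (w : Fin n → ℕ) :
    ∃ N μ : ℕ, (∀ i, w i ≤ μ) ∧ ∀ d, N ≤ d → Pool.Agent.Y205.AV.Big w μ d := by
  refine ⟨∑ i, (w i + 1).choose 2 + 25000 * (∑ i, w i + 1) ^ 2, ∑ i, w i,
    fun i => Finset.single_le_sum (f := w) (fun _ _ => Nat.zero_le _) (Finset.mem_univ i),
    fun d hd => Or.inl ?_⟩
  have h1 := Pool.Agent.Y205.AV.gap_eq w d
  have h2 : d ≤ (d + 2).choose 2 := by
    have h3 : (d + 2).choose 2 = (d + 1) + (d + 1).choose 2 := by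
      rw [Nat.choose_succ_succ' (d + 1) 1, Nat.choose_one_right]
    omega
  have h4 : ∑ i, ((w i + 1).choose 2 : ℤ) = ((∑ i, Nat.choose (w i + 1) 2 : ℕ) : ℤ) := by
    push_cast
    rfl
  rw [h4] at h1
  have h5 : ((∑ i, (w i + 1).choose 2 + 25000 * (∑ i, w i + 1) ^ 2 : ℕ) : ℤ) ≤
      ((d + 2).choose 2 : ℕ) := by exact_mod_cast hd.trans h2
  rw [Nat.cast_add] at h5
  have h6 := le_abs_self ((((d + 2).choose 2 : ℕ) : ℤ) -
    ((∑ i, Nat.choose (w i + 1) 2 : ℕ) : ℤ))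
  have h7 : ((25000 * (∑ i, w i + 1) ^ 2 : ℕ) : ℤ) ≤
      ((∑ i, w i + 2 * Pool.Agent.Y205.AV.gap w d : ℕ) : ℤ) := by
    rw [Nat.cast_add (∑ i, w i), Nat.cast_mul 2, h1]
    have h8 : (0 : ℤ) ≤ ((∑ i, w i : ℕ) : ℤ) := Nat.cast_nonneg _
    have h9 : (0 : ℤ) ≤ ((25000 * (∑ i, w i + 1) ^ 2 : ℕ) : ℤ) := Nat.cast_nonneg _
    push_cast at *
    linarith
  exact_mod_cast h7

/-- The criteria which are used. -/
def Good {n : ℕ} (d : ℕ) (w : Fin n → ℕ) : Prop := Positive d w ∨ Negative d w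

theorem general {n d : ℕ} {w : Fin n → ℕ} (hn : 4 ≤ n) (h : Good d w) :
    ForGeneral fun P => hZero P d w = max 0 (chi d w) := by
  obtain ⟨r, rfl⟩ : ∃ r, n = r + 4 := ⟨n - 4, by omega⟩
  obtain ⟨F, hF, hF'⟩ := Pool.Agent.TH442.NF.to_open (d := d) (w := w) fun {K _ _ P} hP => by
    rcases h with h | h
    · exact Pool.Agent.V5helper95.KV.pos_exp h hP
    · exact Pool.Agent.V5helper95.KV.neg_exp h hP
  exact ⟨F, hF, fun P hP => hZero_of (hF' (L := ℂ) P hP)⟩

theorem forGeneral_finset {n : ℕ} {ι : Type*} (s : Finset ι) (p : ι → (Fin n → Fin 2 → ℂ) → Prop)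
    (h : ∀ a ∈ s, ForGeneral (p a)) : ForGeneral fun P => ∀ a ∈ s, p a P := by
  classical
  induction s using Finset.induction_on with
  | empty => exact ⟨1, one_ne_zero, fun P _ a ha => absurd ha (Finset.notMem_empty a)⟩
  | insert a s _ ih =>
    obtain ⟨F, hF, hF'⟩ := ih fun b hb => h b (Finset.mem_insert_of_mem hb)
    obtain ⟨G, hG, hG'⟩ := h a (Finset.mem_insert_self a s)
    refine ⟨F * G, mul_ne_zero hF hG, fun P hP b hb => ?_⟩
    rw [map_mul] at hP
    rcases Finset.mem_insert.1 hb with rfl | hb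
    · exact hG' P (right_ne_zero_of_mul hP)
    · exact hF' P (left_ne_zero_of_mul hP) b hb

/-- One hypersurface for all degrees with the criteria. -/
theorem good_all {n : ℕ} (hn : 4 ≤ n) (w : Fin n → ℕ) : ForGeneral fun P : Fin n → Fin 2 → ℂ =>
    ∀ d : ℕ, Good d w → hZero P d w = max 0 (chi d w) := by
  classical
  obtain ⟨N, μ, hμ, hN⟩ := exists_big w
  obtain ⟨F, hF, hF'⟩ := big_all w
  obtain ⟨G, hG, hG'⟩ := forGeneral_finset (n := n) (Finset.range N)
    (fun d P => Good d w → hZero P d w = max 0 (chi d w)) fun d _ => by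
      by_cases h : Good d w
      · obtain ⟨F, hF, hF'⟩ := general hn h
        exact ⟨F, hF, fun P hP _ => hF' P hP⟩
      · exact ⟨1, one_ne_zero, fun P _ h' => absurd h' h⟩
  refine ⟨F * G, mul_ne_zero hF hG, fun P hP d hd => ?_⟩
  rw [map_mul] at hP
  rcases lt_or_ge d N with h | h
  · exact hG' P (right_ne_zero_of_mul hP) d (Finset.mem_range.2 h) hd
  · exact hF' P (left_ne_zero_of_mul hP) d μ hμ (hN d h)

theorem interval {α β B : ℝ} (hα : 0 ≤ α) (hB : 0 ≤ B) (h : β - α + 1 ≤ B) :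
    ∃ e L : ℕ, (L : ℝ) ≤ B ∧ ∀ d : ℕ, d < e ∨ e + L ≤ d → ¬ (α < (d : ℝ) ∧ (d : ℝ) < β) := by
  refine ⟨⌊α⌋₊ + 1, ⌈β⌉₊ - (⌊α⌋₊ + 1), ?_, fun d hd h2 => ?_⟩
  · rcases Nat.eq_zero_or_pos (⌈β⌉₊ - (⌊α⌋₊ + 1)) with h0 | h0
    · rw [h0, Nat.cast_zero]
      exact hB
    · have h1 : ((⌈β⌉₊ - (⌊α⌋₊ + 1) : ℕ) : ℝ) = (⌈β⌉₊ : ℝ) - ((⌊α⌋₊ : ℝ) + 1) := by
        rw [Nat.cast_sub (by omega)]
        push_cast
        rfl
      have h2 : α < (⌊α⌋₊ : ℝ) + 1 := Nat.lt_floor_add_one α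
      have h3 : 0 < β := Nat.ceil_pos.1 (by omega)
      have h4 := Nat.ceil_lt_add_one h3.le
      rw [h1]
      linarith
  · have h3 := (Nat.floor_lt hα).2 h2.1
    have h4 := Nat.lt_ceil.2 h2.2
    omega

/-- The exceptional degrees of a single vector are in a short interval. -/
theorem but_of_crit {n M : ℕ} {w : Fin n → ℕ} (hn : 4 ≤ n) (hM : 1 ≤ M) (hw : ∀ i, w i < M)
    (hw9 : 9 * ∑ i, w i ^ 2 < (∑ i, w i) ^ 2)
    (hT : 576 * M ^ 2 ≤ ∑ i, (if 2 ≤ w i then w i ^ 2 else 0)) {B : ℝ}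
    (hB : √n + 720 * (M : ℝ) ^ 6 /
      √((∑ i, (if 2 ≤ w i then w i ^ 2 else 0) : ℕ) : ℝ) ^ 5 ≤ B) : AllDegreesBut B w := by
  obtain ⟨α, β, h1, h2, h3, h4⟩ := Pool.Agent.V5helper94.AC.window_gen (u := up w) hM rfl hT
    (fun i => rfl)
  have hB0 : 0 ≤ B := le_trans (by positivity) hB
  obtain ⟨e, L, hL, hI⟩ := interval h1 hB0 (h2.trans hB)
  obtain ⟨F, hF, hF'⟩ := good_all hn w
  refine ⟨e, L, hL, F, hF, fun P hP d hd => strong_of (hF' P hP d ?_) hw9⟩
  rcases le_or_gt (d : ℝ) α with hd1 | hd1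
  · exact Or.inr (Pool.Agent.V5helper95.KV.crit_negative (M := M) (by omega)
      (fun i => (hw i).le) (Or.inr (Or.inl (h3 d hd1))))
  · have hd2 : β ≤ d := by
      by_contra hcon
      exact hI d hd ⟨hd1, not_le.1 hcon⟩
    obtain ⟨h5, h6, h7⟩ := h4 d hd2
    refine Or.inl (Pool.Agent.V5helper95.KV.crit_positive (M := M) (by omega)
      (fun i => ?_) h5 (Or.inr (Or.inl ⟨h6, h7⟩)))
    unfold up
    have := hw i
    split_ifs <;> omega

/-- One hypersurface for all scales below a bound. -/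
theorem all_scales {n : ℕ} {x : ℕ → ℝ} {A : ℝ} (hx : ∀ i, 0 ≤ x i)
    (h : ∀ a : ℝ, 1 ≤ a → a ≤ A → ∃ μ : ℕ, (∀ i : Fin n, ⌊a * x i⌋₊ ≤ μ) ∧
      25000 * (μ + 1) ^ 2 ≤ ∑ i : Fin n, ⌊a * x i⌋₊) :
    ForGeneral fun P : Fin n → Fin 2 → ℂ => ∀ a : ℝ, 1 ≤ a → a ≤ A →
      AllDegrees P (mult x a n) := by
  classical
  obtain ⟨F, hF, hF'⟩ := forGeneral_finset (n := n)
    (Fintype.piFinset fun i : Fin n => Finset.range (⌊A * x i⌋₊ + 1))
    (fun w P => (∃ a : ℝ, 1 ≤ a ∧ a ≤ A ∧ w = mult x a n) → AllDegrees P w) fun w _ => by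
      by_cases hw : ∃ a : ℝ, 1 ≤ a ∧ a ≤ A ∧ w = mult x a n
      · obtain ⟨a, h1, h2, rfl⟩ := hw
        obtain ⟨μ, hμ, h3⟩ := h a h1 h2
        obtain ⟨F, hF, hF'⟩ := all_of_crit (w := mult x a n) hμ h3
        exact ⟨F, hF, fun P hP _ => hF' P hP⟩
      · exact ⟨1, one_ne_zero, fun P _ h' => absurd h' hw⟩
  refine ⟨F, hF, fun P hP a h1 h2 => hF' P hP _ (Fintype.mem_piFinset.2 fun i => ?_)
    ⟨a, h1, h2, rfl⟩⟩
  exact Finset.mem_range.2 (Nat.lt_succ_of_le
    (Nat.floor_le_floor (mul_le_mul_of_nonneg_right h2 (hx i))))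

/-- **The strong Nagata conjecture for random multiplicities.** Let `X 0, X 1, …` be pairwise independent and
identically distributed nonnegative random variables with `P (X ≥ 1) > 0`. -/
theorem result {Ω : Type} [MeasureSpace Ω] [IsProbabilityMeasure (ℙ : Measure Ω)]
    {X : ℕ → Ω → ℝ} (hm : ∀ i, Measurable (X i)) (h0 : ∀ i ω, 0 ≤ X i ω)
    (hind : Pairwise fun i j => IndepFun (X i) (X j)) (hid : ∀ i, IdentDistrib (X i) (X 0))
    (hpos : ℙ {ω | 1 ≤ X 0 ω} ≠ 0) :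
    (∀ p : ℝ, 2 ≤ p → Integrable (fun ω => X 0 ω ^ p) →
      -- (1) all degrees
      (∀ᵐ ω, ∀ C : ℝ, ∀ᶠ n : ℕ in atTop, ForGeneral fun P : Fin n → Fin 2 → ℂ =>
        ∀ a : ℝ, 1 ≤ a → a ≤ C * (n : ℝ) ^ (1 - 2 / p) →
          AllDegrees P (mult (fun i => X i ω) a n)) ∧
      -- (2) all scales
      (∀ᵐ ω, ∀ ε : ℝ, 0 < ε → ∀ᶠ n : ℕ in atTop, ∀ a : ℝ, 1 ≤ a →
        AllDegreesBut (√n + ε * a * (n : ℝ) ^ (6 / p - 5 / 2)) (mult (fun i => X i ω) a n))) ∧
    -- (3) bounded random variables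
    (∀ K : ℝ, (∀ i ω, X i ω ≤ K) → ∃ c : ℝ, 0 < c ∧ ∀ᵐ ω, ∀ᶠ n : ℕ in atTop,
      ForGeneral fun P : Fin n → Fin 2 → ℂ => ∀ a : ℝ, 1 ≤ a → a ≤ c * n →
        AllDegrees P (mult (fun i => X i ω) a n)) ∧
    -- (4) points with algebraically independent coordinates are general
    (∀ (n : ℕ) (p : (Fin n → Fin 2 → ℂ) → Prop), ForGeneral p → ∀ P : Fin n → Fin 2 → ℂ,
      AlgebraicIndependent ℚ (fun ij : Fin n × Fin 2 => P ij.1 ij.2) → p P) := by
  obtain ⟨q, hq, hcount⟩ := Pool.Agent.V5helper94.AC.ae_count hm hind hid hpos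
  refine ⟨fun p hp hint => ?_, fun K hK => ?_, fun n p hp P hP => ?_⟩
  · have hmax := Pool.Agent.V5helper94.AC.ae_max (by linarith) h0 hid hint
    have key : ∀ᵐ ω, ∀ C : ℝ, ∀ᶠ n : ℕ in atTop, ForGeneral fun P : Fin n → Fin 2 → ℂ =>
        ∀ a : ℝ, 1 ≤ a → a ≤ C * (n : ℝ) ^ (1 - 2 / p) →
          AllDegrees P (mult (fun i => X i ω) a n) := by
      filter_upwards [hcount, hmax] with ω h1 h2 C
      have hC : 0 < max C 1 := lt_of_lt_of_le one_pos (le_max_right _ _)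
      filter_upwards [Pool.Agent.V5helper94.AC.det_all (x := fun i => X i ω) hq hp hC h1 h2]
        with n hn
      exact all_scales (x := fun i => X i ω) (fun i => h0 i ω) fun a ha haC =>
        hn a ha (haC.trans (mul_le_mul_of_nonneg_right (le_max_left _ _)
          (Real.rpow_nonneg (Nat.cast_nonneg n) _)))
    refine ⟨key, ?_⟩
    filter_upwards [hcount, hmax, key] with ω h1 h2 h3 ε hε
    filter_upwards [Pool.Agent.V5helper94.AC.det_win (x := fun i => X i ω) hq hp hε h1 h2, h3 2,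
      eventually_ge_atTop 4] with n hn1 hn2 hn4 a ha
    have hn0 : (1 : ℝ) ≤ n := by exact_mod_cast (by omega : 1 ≤ n)
    rcases le_or_gt 2 a with h | h
    · obtain ⟨M, hM, hw, hT, hB, h9⟩ := hn1 a h
      exact but_of_crit (w := mult (fun i => X i ω) a n) hn4 hM hw h9 hT
        (by unfold mult; linarith)
    · obtain ⟨F, hF, hF'⟩ := hn2
      refine but_of_all ⟨F, hF, fun P hP => hF' P hP a ha ?_⟩ (by positivity)
      have h5 : (1 : ℝ) ≤ (n : ℝ) ^ (1 - 2 / p) :=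
        Real.one_le_rpow hn0 (by rw [sub_nonneg, div_le_one (by linarith)]; exact hp)
      linarith
  · refine ⟨q / (200000 * (max K 1) ^ 2), by positivity, ?_⟩
    filter_upwards [hcount] with ω h1
    filter_upwards [Pool.Agent.V5helper94.AC.det_bounded (x := fun i => X i ω) hq
      (fun i => hK i ω) h1] with n hn
    exact all_scales (x := fun i => X i ω) (fun i => h0 i ω) hn
  · obtain ⟨F, hF, hF'⟩ := hp
    refine hF' P fun h => hF ?_
    exact (injective_iff_map_eq_zero _).1 hP F h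

end Pool.Agent.Results.MP_b180eb_ag.RandomMultiplicities
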